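import Pool.Agent.Helper5.Core2.Defs

/-! MP_fafe86_al, offer O4: monolithic groups. -/

set_option autoImplicit false

namespace Pool.Agent.Helper95.Core2

open Subgroup Pool.Agent.Helper5.Core2

section Groups

variable {G : Type*} [Group G]

/-! ### Tools -/

theorem sq_mem_Sq (x : G) : x ^ 2 ∈ Sq G := subset_closure ⟨x, rfl⟩

theorem comm_eq (x y : G) : x * y * x⁻¹ * y⁻¹ = x ^ 2 * (x⁻¹ * y) ^ 2 * (y⁻¹) ^ 2 := by
  simp only [pow_two]
  group

theorem comm_mem_Sq (x y : G) : x * y * x⁻¹ * y⁻¹ ∈ Sq G := by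
  rw [comm_eq]
  exact mul_mem (mul_mem (sq_mem_Sq _) (sq_mem_Sq _)) (sq_mem_Sq _)

theorem normal_of_Sq_le {A : Subgroup G} (h : Sq G ≤ A) : A.Normal := by
  constructor
  intro n hn g
  have h1 : g * n * g⁻¹ * n⁻¹ ∈ A := h (comm_mem_Sq g n)
  have h2 : g * n * g⁻¹ = g * n * g⁻¹ * n⁻¹ * n := by group
  rw [h2]
  exact mul_mem h1 hn

theorem zpowers_normal_of {w : G} (h : ∀ g, g * w * g⁻¹ ∈ zpowers w) : (zpowers w).Normal := by
  constructor
  rintro n ⟨k, rfl⟩ g
  have : g * w ^ k * g⁻¹ = (g * w * g⁻¹) ^ k := by rw [conj_zpow]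
  simp only
  rw [this]
  exact zpow_mem (h g) k

theorem exists_invol (h2 : IsPGroup 2 G) {g : G} (hg : g ≠ 1) :
    ∃ k : ℕ, g ^ k ≠ 1 ∧ (g ^ k) ^ 2 = 1 := by
  obtain ⟨n, hn⟩ := h2 g
  have hex : ∃ n : ℕ, g ^ (2 ^ n) = 1 := ⟨n, hn⟩
  classical
  have h0 : Nat.find hex ≠ 0 := by
    intro h0
    have := Nat.find_spec hex
    rw [h0] at this
    simp at this
    exact hg this
  obtain ⟨m, hm⟩ := Nat.exists_eq_succ_of_ne_zero h0
  refine ⟨2 ^ m, ?_, ?_⟩
  · exact Nat.find_min hex (by omega)
  · have := Nat.find_spec hex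
    rw [hm, Nat.succ_eq_add_one, pow_succ, pow_mul] at this
    exact this

theorem mem_zpowers_odd (h2 : IsPGroup 2 G) (g : G) (m : ℤ) : g ∈ zpowers (g ^ (2 * m + 1)) := by
  obtain ⟨n, hn⟩ := h2 g
  have hcop : IsCoprime (2 * m + 1) ((2 : ℤ) ^ n) := by
    apply IsCoprime.pow_right
    exact ⟨1, -m, by ring⟩
  obtain ⟨a, b, hab⟩ := hcop
  refine ⟨a, ?_⟩
  simp only
  rw [← zpow_mul]
  have h1 : (2 * m + 1) * a = 1 - b * 2 ^ n := by linarith
  rw [h1, zpow_sub, zpow_one, mul_comm b, zpow_mul]
  have h3 : g ^ ((2 : ℤ) ^ n) = 1 := by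
    have : ((2 : ℤ) ^ n) = ((2 ^ n : ℕ) : ℤ) := by push_cast; rfl
    rw [this, zpow_natCast, hn]
  rw [h3, one_zpow, inv_one, mul_one]

theorem mem_zpowers_invol {c g : G} (hc : c ^ 2 = 1) (hg : g ∈ zpowers c) : g = 1 ∨ g = c := by
  obtain ⟨k, hk⟩ := hg
  simp only at hk
  have hc' : c ^ (2 : ℤ) = 1 := by exact_mod_cast hc
  rcases Int.even_or_odd' k with ⟨m, hm | hm⟩
  · left
    rw [← hk, hm, zpow_mul, hc', one_zpow]
  · right
    rw [← hk, hm, zpow_add, zpow_mul, hc', one_zpow, one_mul, zpow_one]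

theorem index_le_of {α : Type*} [Finite α] (H : Subgroup G) (f : G → α)
    (hf : ∀ a b, f a = f b → a⁻¹ * b ∈ H) : H.index ≤ Nat.card α := by
  unfold Subgroup.index
  apply Nat.card_le_card_of_injective (fun q : G ⧸ H => f q.out)
  intro q q' h
  have := hf _ _ h
  rw [← QuotientGroup.eq] at this
  simpa using this

theorem index_le_two_of (H : Subgroup G) (h : ∀ a b, a ∉ H → b ∉ H → a⁻¹ * b ∈ H) :
    H.index ≤ 2 := by
  classical
  have := index_le_of (α := Bool) H (fun g => decide (g ∈ H)) (by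
    intro a b hab
    simp only [decide_eq_decide] at hab
    by_cases ha : a ∈ H
    · exact mul_mem (inv_mem ha) (hab.mp ha)
    · exact h a b ha (fun hb => ha (hab.mpr hb)))
  simpa using this

/-! ### Monolithic groups -/

theorem mono_center [Finite G] (h2 : IsPGroup 2 G) {z : G} (hz : Mono z) :
    z ∈ center G ∧ z ^ 2 = 1 := by
  have hnt : Nontrivial G := ⟨z, 1, hz.1⟩
  have : Fact (Nat.Prime 2) := ⟨Nat.prime_two⟩
  have hcn : Nontrivial (center G) := h2.center_nontrivial
  obtain ⟨⟨c, hc⟩, hc1⟩ := exists_ne (1 : center G)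
  have hc1' : c ≠ 1 := fun h => hc1 (Subtype.ext h)
  obtain ⟨k, hk1, hk2⟩ := exists_invol h2 hc1'
  have hck : c ^ k ∈ center G := pow_mem hc k
  have hn : (zpowers (c ^ k)).Normal := by
    apply zpowers_normal_of
    intro g
    rw [mem_center_iff.mp hck g, mul_inv_cancel_right]
    exact mem_zpowers _
  have hz1 : z ∈ zpowers (c ^ k) := hz.2 _ hn (by simpa using hk1)
  rcases mem_zpowers_invol hk2 hz1 with h | h
  · exact absurd h hz.1
  · rw [h]
    exact ⟨hck, hk2⟩

theorem mono_mem (h : IsC G) {z : G} (hz : Mono z) {w : G} (hw : w ^ 2 ≠ 1) :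
    z ∈ zpowers (w ^ 2) :=
  hz.2 _ (zpowers_normal_of (h.F1 w)) (by simpa using hw)

theorem mono_central_invol {z : G} (hz : Mono z) {k : G} (hk : k ∈ center G) (hk1 : k ≠ 1)
    (hk2 : k ^ 2 = 1) : k = z := by
  have hn : (zpowers k).Normal := by
    apply zpowers_normal_of
    intro g
    rw [mem_center_iff.mp hk g, mul_inv_cancel_right]
    exact mem_zpowers _
  have hz1 : z ∈ zpowers k := hz.2 _ hn (by simpa using hk1)
  rcases mem_zpowers_invol hk2 hz1 with h | h
  · exact absurd h hz.1
  · exact h.symm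

theorem mm2 (h : IsC G) {z : G} (hz : Mono z) {x y : G} (hx : x ^ 2 = 1) (hy : y ^ 2 = 1)
    (hxy : x * y = y * x) (hx1 : x ≠ 1) (hy1 : y ≠ 1) (hne : x ≠ y) :
    x = z ∨ y = z ∨ x * y = z := by
  have hxy2 : (x * y) ^ 2 = 1 := by
    rw [(show Commute x y from hxy).mul_pow, hx, hy, one_mul]
  have hP : PP x y = ⊥ := by
    unfold PP
    rw [hx, hy, hxy2]
    simp
  have hcen : ∀ k : G, (∀ g, k * g * k⁻¹ * g⁻¹ ∈ PP x y) → k ∈ center G := by
    intro k hk
    rw [mem_center_iff]
    intro g
    have := hk g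
    rw [hP, mem_bot] at this
    have h3 : k * g = g * k := by
      calc k * g = (k * g * k⁻¹ * g⁻¹) * g * k := by group
        _ = g * k := by rw [this, one_mul]
    exact h3.symm
  rcases h.star x y with h1 | h1 | h1
  · left; exact mono_central_invol hz (hcen _ h1) hx1 hx
  · right; left; exact mono_central_invol hz (hcen _ h1) hy1 hy
  · right; right
    refine mono_central_invol hz (hcen _ (fun g => by simpa [mul_assoc] using h1 g)) ?_ hxy2
    intro h3
    apply hne
    have : x = y⁻¹ := eq_inv_of_mul_eq_one_left h3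
    rw [this, inv_eq_iff_mul_eq_one, ← pow_two, hy]

theorem closure_comm (S : Set G) (hS : ∀ x ∈ S, ∀ y ∈ S, x * y = y * x) :
    ∀ x ∈ closure S, ∀ y ∈ closure S, x * y = y * x := by
  have h1 : S ⊆ centralizer S := by
    intro x hx
    rw [SetLike.mem_coe, mem_centralizer_iff]
    intro y hy
    exact hS y hy x hx
  have h2 : closure S ≤ centralizer S := (closure_le _).mpr h1
  have h3 : S ⊆ centralizer (closure S : Set G) := by
    intro x hx
    rw [SetLike.mem_coe, mem_centralizer_iff]
    intro y hy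
    have := h2 hy
    rw [mem_centralizer_iff] at this
    exact (this x hx).symm
  have h4 : closure S ≤ centralizer (closure S : Set G) := (closure_le _).mpr h3
  intro x hx y hy
  have := h4 hx
  rw [mem_centralizer_iff] at this
  exact (this y hy).symm

theorem exists_SC [Finite G] (B₀ : Subgroup G) (hsq : Sq G ≤ B₀)
    (hcomm : ∀ x ∈ B₀, ∀ y ∈ B₀, x * y = y * x) : ∃ B : Subgroup G, SC B ∧ B₀ ≤ B := by
  have hfin : {B : Subgroup G | ∀ x ∈ B, ∀ y ∈ B, x * y = y * x}.Finite := Set.toFinite _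
  obtain ⟨B, hB0, hB⟩ := hfin.exists_le_maximal (a := B₀) hcomm
  refine ⟨B, ⟨hsq.trans hB0, hB.prop, ?_⟩, hB0⟩
  intro g hg
  have h1 : ∀ x ∈ closure (insert g (B : Set G)), ∀ y ∈ closure (insert g (B : Set G)),
      x * y = y * x := by
    apply closure_comm
    rintro x (rfl | hx) y (rfl | hy)
    · rfl
    · exact hg y hy
    · exact (hg x hx).symm
    · exact hB.prop x hx y hy
  have h2 : B ≤ closure (insert g (B : Set G)) := fun b hb => subset_closure (Or.inr hb)
  have h3 := hB.le_of_ge h1 h2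
  exact h3 (subset_closure (Or.inl rfl))

theorem cyc_of_unique [Finite G] (h2 : IsPGroup 2 G) (B : Subgroup G)
    (hcomm : ∀ x ∈ B, ∀ y ∈ B, x * y = y * x) {z : G}
    (hz : ∀ t ∈ B, t ^ 2 = 1 → t = 1 ∨ t = z) : ∃ b ∈ B, ∀ c ∈ B, c ∈ zpowers b := by
  obtain ⟨⟨b, hbB⟩, hb⟩ := Finite.exists_max (fun c : B => orderOf (c : G))
  refine ⟨b, hbB, ?_⟩
  have key : ∀ k : ℕ, ∀ c ∈ B, c ^ (2 ^ k) = 1 → c ∈ zpowers b := by
    intro k
    induction k with
    | zero =>
      intro c _ hc1
      rw [pow_zero, pow_one] at hc1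
      rw [hc1]
      exact one_mem _
    | succ k ih =>
      intro c hc hc1
      have h1 : c ^ 2 ∈ zpowers b := by
        apply ih _ (pow_mem hc 2)
        rw [← pow_mul, ← pow_succ']
        exact hc1
      obtain ⟨j, hj⟩ := h1
      simp only at hj
      rcases Int.even_or_odd' j with ⟨m, hm | hm⟩
      · -- even
        have hcb : Commute c (b ^ (-m)) := by
          have : Commute c b := hcomm c hc b hbB
          exact this.zpow_right _
        have h3 : (c * b ^ (-m)) ^ 2 = 1 := by
          rw [hcb.mul_pow, ← hj, hm, ← zpow_natCast (b ^ (-m)), ← zpow_mul, ← zpow_add]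
          rw [show 2 * m + -m * ((2 : ℕ) : ℤ) = 0 by push_cast; ring, zpow_zero]
        have hmem : c * b ^ (-m) ∈ B := mul_mem hc (zpow_mem hbB _)
        have h4 : c * b ^ (-m) ∈ zpowers b := by
          rcases hz _ hmem h3 with h5 | h5
          · rw [h5]; exact one_mem _
          · by_cases hb1 : b = 1
            · -- then all orders ≤ 1
              have := hb ⟨c, hc⟩
              simp only [hb1, orderOf_one] at this
              have hco : orderOf c = 1 := le_antisymm this (orderOf_pos c)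
              rw [orderOf_eq_one_iff] at hco
              rw [hco, hb1]
              simp
            · obtain ⟨i, hi1, hi2⟩ := exists_invol h2 hb1
              rcases hz _ (pow_mem hbB i) hi2 with h6 | h6
              · exact absurd h6 hi1
              · rw [h5, ← h6]
                exact pow_mem (mem_zpowers b) i
        have h5 : c = (c * b ^ (-m)) * b ^ m := by
          rw [mul_assoc, ← zpow_add, neg_add_cancel, zpow_zero, mul_one]
        rw [h5]
        exact mul_mem h4 (zpow_mem (mem_zpowers b) m)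
      · -- odd
        have h3 : b ∈ zpowers (c ^ 2) := by
          have := mem_zpowers_odd h2 b m
          rw [← hm, hj] at this
          exact this
        have h4 : orderOf b ∣ orderOf (c ^ 2) := by
          rw [orderOf_dvd_iff_pow_eq_one]
          obtain ⟨i, hi⟩ := h3
          simp only at hi
          rw [← hi, ← zpow_natCast, ← zpow_mul, mul_comm, zpow_mul, zpow_natCast,
            pow_orderOf_eq_one, one_zpow]
        have h5 : orderOf b ≤ orderOf (c ^ 2) := Nat.le_of_dvd (orderOf_pos _) h4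
        have h6 : orderOf c ≤ orderOf b := hb ⟨c, hc⟩
        have h7 : orderOf c ≤ orderOf (c ^ 2) := h6.trans h5
        by_cases hc1' : c = 1
        · rw [hc1']; exact one_mem _
        · exfalso
          obtain ⟨i, hi⟩ := (Nat.dvd_prime_pow Nat.prime_two).mp (orderOf_dvd_of_pow_eq_one hc1)
          have hi0 : i ≠ 0 := by
            intro h0
            rw [h0, pow_zero, orderOf_eq_one_iff] at hi
            exact hc1' hi.2
          have h8 : orderOf (c ^ 2) ∣ 2 ^ (i - 1) := by
            rw [orderOf_dvd_iff_pow_eq_one, ← pow_mul, ← pow_succ']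
            rw [show i - 1 + 1 = i by omega, ← hi.2]
            exact pow_orderOf_eq_one c
          have h9 := Nat.le_of_dvd (by positivity) h8
          rw [hi.2] at h7
          have h10 : 2 ^ (i - 1) < 2 ^ i := Nat.pow_lt_pow_right (by norm_num) (by omega)
          omega
  intro c hc
  obtain ⟨k, hk⟩ := h2 c
  exact key k c hc hk

/-- `t`-part of `mm3`: involutions of `B`. -/
theorem invol_B (h : IsC G) {z : G} (hz : Mono z) {B : Subgroup G} (hB : SC B) {t : G}
    (ht : t ∈ B) (ht2 : t ^ 2 = 1) (ht1 : t ≠ 1) (htz : t ≠ z) {s : G} (hs : s ∈ B)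
    (hs2 : s ^ 2 = 1) : s = 1 ∨ s = z ∨ s = t ∨ s = t * z := by
  by_cases h1 : s = 1
  · exact Or.inl h1
  by_cases h2 : s = t
  · exact Or.inr (Or.inr (Or.inl h2))
  rcases mm2 h hz hs2 ht2 (hB.comm s hs t ht) h1 ht1 h2 with h3 | h3 | h3
  · exact Or.inr (Or.inl h3)
  · exact absurd h3 htz
  · right; right; right
    have h4 : t * s = z := by rw [← hB.comm s hs t ht, h3]
    have h5 : t * t = 1 := by rw [← pow_two, ht2]
    rw [← h4, ← mul_assoc, h5, one_mul]

theorem center_le_SC {B : Subgroup G} (hB : SC B) : center G ≤ B := by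
  intro g hg
  exact hB.cent g (fun b _ => (mem_center_iff.mp hg b).symm)

theorem sq_E [Finite G] (B : Subgroup G) (hcomm : ∀ x ∈ B, ∀ y ∈ B, x * y = y * x) {z t : G}
    (hker : ∀ s ∈ B, s ^ 2 = 1 → s = 1 ∨ s = z ∨ s = t ∨ s = t * z)
    (ht : t ∈ B) (ht2 : t ^ 2 = 1) (htn : ∀ b ∈ B, b ^ 2 ≠ t) {w : G} (hw : w ∈ B)
    (hwE : ∀ b ∈ B, ∀ s ∈ B, s ^ 2 = 1 → w ≠ b ^ 2 * s) :
    ∀ b ∈ B, (∃ b₁ ∈ B, ∃ s ∈ B, s ^ 2 = 1 ∧ b = b₁ ^ 2 * s) ∨
      (∃ b₁ ∈ B, ∃ s ∈ B, s ^ 2 = 1 ∧ b = b₁ ^ 2 * s * w) := by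
  classical
  let f : B →* B := MonoidHom.mk' (fun b => b ^ 2) (by
    intro a b
    have : Commute a b := Subtype.ext (hcomm _ a.2 _ b.2)
    exact this.mul_pow 2)
  have hf : ∀ b : B, f b = b ^ 2 := fun _ => rfl
  have hkn : f.ker.Normal := inferInstance
  set E : Subgroup B := f.range ⊔ f.ker with hE
  have hmemE : ∀ b : B, b ∈ E ↔ ∃ b₁ : B, ∃ s : B, s ^ 2 = 1 ∧ b = b₁ ^ 2 * s := by
    intro b
    have h1 := Subgroup.mul_normal f.range f.ker
    rw [← SetLike.mem_coe, hE, h1, Set.mem_mul]
    constructor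
    · rintro ⟨_, ⟨b₁, rfl⟩, s, hs, rfl⟩
      exact ⟨b₁, s, hs, rfl⟩
    · rintro ⟨b₁, s, hs, rfl⟩
      exact ⟨b₁ ^ 2, ⟨b₁, rfl⟩, s, hs, rfl⟩
  have hkercard : Nat.card f.ker ≤ 4 := by
    have hinj : Function.Injective (fun s : f.ker => (⟨((s : B) : G), by
      have hs : ((s : B)) ^ 2 = 1 := s.2
      have hs' : (((s : B) : G)) ^ 2 = 1 := by
        have := congrArg (Subtype.val) hs
        simpa using this
      have := hker _ (s : B).2 hs'
      simp only [Finset.mem_insert, Finset.mem_singleton]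
      exact this⟩ : ({1, z, t, t * z} : Finset G))) := by
      intro a b hab
      simp only [Subtype.mk.injEq] at hab
      exact Subtype.ext (Subtype.ext hab)
    have h1 := Nat.card_le_card_of_injective _ hinj
    refine h1.trans ?_
    rw [Nat.card_eq_fintype_card, Fintype.card_coe]
    exact Finset.card_le_four
  have hidx : f.range.index ≤ 4 := by
    have h1 : Nat.card f.ker * f.ker.index = Nat.card B := f.ker.card_mul_index
    have h2 : Nat.card f.range * f.range.index = Nat.card B := f.range.card_mul_index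
    rw [Subgroup.index_ker, mul_comm, ← h2] at h1
    have h3 : 0 < Nat.card f.range := Nat.card_pos
    have h4 := Nat.eq_of_mul_eq_mul_left h3 h1
    omega
  have hle : f.range ≤ E := le_sup_left
  have htE : (⟨t, ht⟩ : B) ∈ E := by
    apply (le_sup_right : f.ker ≤ E)
    rw [MonoidHom.mem_ker, hf]
    exact Subtype.ext (by simpa using ht2)
  have htR : (⟨t, ht⟩ : B) ∉ f.range := by
    rintro ⟨b, hb⟩
    apply htn b b.2
    have := congrArg Subtype.val hb
    simpa [hf] using this
  have hrel : f.range.relIndex E ≠ 1 := by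
    rw [Ne, Subgroup.relIndex_eq_one]
    intro h
    exact htR (h htE)
  have hmul := Subgroup.relIndex_mul_index hle
  have hpos : f.range.relIndex E ≠ 0 := by
    intro h0
    rw [h0, zero_mul] at hmul
    exact Subgroup.index_ne_zero_of_finite hmul.symm
  have hEpos : E.index ≠ 0 := Subgroup.index_ne_zero_of_finite
  have hE2 : E.index ≤ 2 := by
    by_contra h3
    have h5 : 2 ≤ f.range.relIndex E := by omega
    have h6 : 2 * 3 ≤ f.range.relIndex E * E.index := Nat.mul_le_mul h5 (by omega)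
    omega
  have hwE' : (⟨w, hw⟩ : B) ∉ E := by
    rw [hmemE]
    rintro ⟨b₁, s, hs, hb⟩
    refine hwE b₁ b₁.2 s s.2 ?_ ?_
    · have := congrArg Subtype.val hs
      simpa using this
    · have := congrArg Subtype.val hb
      simpa using this
  have hE2' : E.index = 2 := by
    have : E.index ≠ 1 := by
      rw [Ne, Subgroup.index_eq_one]
      intro h
      exact hwE' (h ▸ mem_top _)
    omega
  intro b hb
  by_cases hbE : (⟨b, hb⟩ : B) ∈ E
  · left
    obtain ⟨b₁, s, hs, hbs⟩ := (hmemE _).mp hbE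
    refine ⟨b₁, b₁.2, s, s.2, ?_, ?_⟩
    · have := congrArg Subtype.val hs
      simpa using this
    · have := congrArg Subtype.val hbs
      simpa using this
  · right
    have h7 : (⟨b, hb⟩ : B) * (⟨w, hw⟩ : B)⁻¹ ∈ E := by
      rw [Subgroup.mul_mem_iff_of_index_two hE2', inv_mem_iff]
      exact iff_of_false hbE hwE'
    obtain ⟨b₁, s, hs, hbs⟩ := (hmemE _).mp h7
    refine ⟨b₁, b₁.2, s, s.2, ?_, ?_⟩
    · have := congrArg Subtype.val hs
      simpa using this
    · have := congrArg Subtype.val hbs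
      simp only [Subgroup.coe_mul, InvMemClass.coe_inv, SubmonoidClass.coe_pow] at this
      rw [← this, inv_mul_cancel_right]

theorem mm3 [Finite G] (h : IsC G) {z : G} (hz : Mono z) {B : Subgroup G} (hB : SC B) {t y : G}
    (ht : t ∈ B) (ht2 : t ^ 2 = 1) (ht1 : t ≠ 1) (htz : t ≠ z) (hy : y ∉ B)
    (hyt : y * t = t * y) : (∀ b ∈ B, y * b * y⁻¹ = b⁻¹) ∧ y ^ 2 = z := by
  obtain ⟨hzc, hz2⟩ := mono_center h.two hz
  have hzB : z ∈ B := center_le_SC hB hzc
  have hzz : z * z = 1 := by rw [← pow_two, hz2]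
  have htt : t * t = 1 := by rw [← pow_two, ht2]
  have hsqB : ∀ g : G, g ^ 2 ∈ B := fun g => hB.sq_le (sq_mem_Sq g)
  -- (a)
  have ha0 : ∀ b ∈ B, y * b ∉ B := by
    intro b hb hyb
    apply hy
    have := mul_mem hyb (inv_mem hb)
    rwa [mul_inv_cancel_right] at this
  have hat : ∀ b ∈ B, (y * b) * t = t * (y * b) := by
    intro b hb
    rw [mul_assoc, hB.comm b hb t ht, ← mul_assoc, hyt, mul_assoc]
  have ha1 : ∀ b ∈ B, (y * b) ^ 2 ≠ 1 := by
    intro b hb h1
    have hn1 : y * b ≠ 1 := fun h2 => ha0 b hb (h2 ▸ one_mem _)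
    have hnt : y * b ≠ t := fun h2 => ha0 b hb (h2 ▸ ht)
    rcases mm2 h hz h1 ht2 (hat b hb) hn1 ht1 hnt with h2 | h2 | h2
    · exact ha0 b hb (h2 ▸ hzB)
    · exact htz h2
    · apply ha0 b hb
      have : y * b = z * t⁻¹ := eq_mul_inv_of_mul_eq h2
      rw [this]
      exact mul_mem hzB (inv_mem ht)
  have haz : ∀ b ∈ B, z ∈ zpowers ((y * b) ^ 2) := fun b hb => mono_mem h hz (ha1 b hb)
  have ha2 : ∀ b ∈ B, (y * b) ^ 2 ≠ t := by
    intro b hb h1
    have := haz b hb
    rw [h1] at this
    rcases mem_zpowers_invol ht2 this with h2 | h2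
    · exact hz.1 h2
    · exact htz h2.symm
  have ha3 : ∀ b ∈ B, (y * b) ^ 2 ≠ t * z := by
    intro b hb h1
    have := haz b hb
    rw [h1] at this
    have htz2 : (t * z) ^ 2 = 1 := by
      rw [(show Commute t z from hB.comm t ht z hzB).mul_pow, ht2, hz2, one_mul]
    rcases mem_zpowers_invol htz2 this with h2 | h2
    · exact hz.1 h2
    · exact ht1 (by simpa using h2.symm)
  have hinv := fun {s : G} (hs : s ∈ B) (hs2 : s ^ 2 = 1) =>
    invol_B h hz hB ht ht2 ht1 htz hs hs2
  have hzy : y * z = z * y := mem_center_iff.mp hzc y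
  have hinvy : ∀ s ∈ B, s ^ 2 = 1 → y * s = s * y := by
    intro s hs hs2
    rcases hinv hs hs2 with h1 | h1 | h1 | h1
    · rw [h1, mul_one, one_mul]
    · rw [h1, hzy]
    · rw [h1, hyt]
    · rw [h1, ← mul_assoc, hyt, mul_assoc, hzy, mul_assoc]
  -- `(y b)^2` commutes with `y`
  have hyb2 : ∀ b ∈ B, y * (y * b) ^ 2 = (y * b) ^ 2 * y := by
    intro b hb
    have h1 : Commute (y * b) ((y * b) ^ 2) := (Commute.refl _).pow_right 2
    have h2 : Commute b ((y * b) ^ 2) := hB.comm b hb _ (hsqB _)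
    have h3 : Commute (y * b * b⁻¹) ((y * b) ^ 2) := h1.mul_left h2.inv_left
    rw [mul_inv_cancel_right] at h3
    exact h3
  by_cases hcase : ∀ c ∈ B, y * c = c * y → c ^ 2 = 1
  · -- Case 1
    have hall : ∀ b ∈ B, (y * b) ^ 2 = z := by
      intro b hb
      have h1 := hcase _ (hsqB (y * b)) (hyb2 b hb)
      rcases hinv (hsqB (y * b)) h1 with h2 | h2 | h2 | h2
      · exact absurd h2 (ha1 b hb)
      · exact h2
      · exact absurd h2 (ha2 b hb)
      · exact absurd h2 (ha3 b hb)
    have hyz : y ^ 2 = z := by simpa using hall 1 (one_mem _)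
    refine ⟨?_, hyz⟩
    intro b hb
    have h1 := hall b hb
    rw [← hyz, pow_two, pow_two] at h1
    have h2 : b * (y * b) = y := by
      apply mul_left_cancel (a := y)
      rw [← mul_assoc]
      exact h1
    calc y * b * y⁻¹ = b⁻¹ * (b * (y * b)) * y⁻¹ := by group
      _ = b⁻¹ := by rw [h2, mul_assoc, mul_inv_cancel, mul_one]
  · -- Case 2
    exfalso
    push Not at hcase
    obtain ⟨c, hcB, hcy, hc2⟩ := hcase
    obtain ⟨k, hk1, hk2⟩ := exists_invol h.two hc2
    -- c' = c ^ k
    set c' := c ^ k with hc'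
    have hc'B : c' ∈ B := pow_mem hcB k
    have hc'2 : c' ^ 2 ≠ 1 := by
      rw [hc', ← pow_mul, mul_comm, pow_mul]
      exact hk1
    have hc'4 : (c' ^ 2) ^ 2 = 1 := by
      have : c' ^ 2 = (c ^ 2) ^ k := by rw [hc', ← pow_mul, mul_comm, pow_mul]
      rw [this]
      exact hk2
    have hc'z : c' ^ 2 = z := by
      rcases mem_zpowers_invol hc'4 (mono_mem h hz hc'2) with h1 | h1
      · exact absurd h1 hz.1
      · exact h1.symm
    have hc'y : Commute y c' := (show Commute y c from hcy).pow_right k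
    have hnz : ∀ b ∈ B, (y * b) ^ 2 ≠ z := by
      intro b hb h1
      have hcb : Commute (y * b) c' :=
        hc'y.mul_left (show Commute b c' from hB.comm b hb c' hc'B)
      apply ha1 (b * c') (mul_mem hb hc'B)
      rw [← mul_assoc, hcb.mul_pow, h1, hc'z, hzz]
    have hd : ∀ b ∈ B, ((y * b) ^ 2) ^ 2 ≠ 1 := by
      intro b hb h1
      rcases hinv (hsqB (y * b)) h1 with h2 | h2 | h2 | h2
      · exact absurd h2 (ha1 b hb)
      · exact absurd h2 (hnz b hb)
      · exact absurd h2 (ha2 b hb)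
      · exact absurd h2 (ha3 b hb)
    -- (e) for y' = y
    have hBn : B.Normal := normal_of_Sq_le hB.sq_le
    have he : ∀ b ∈ B, ∀ s ∈ B, s ^ 2 = 1 → y ^ 2 ≠ b ^ 2 * s := by
      intro b hb s hs hs2 h1
      have hys := hinvy s hs hs2
      -- b^2 commutes with y
      have hb2 : Commute y (b ^ 2) := by
        have : b ^ 2 = y ^ 2 * s⁻¹ := by rw [h1, mul_inv_cancel_right]
        rw [this]
        exact ((Commute.refl y).pow_right 2).mul_right (show Commute y s from hys).inv_right
      set u := y⁻¹ * b * y with hu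
      have huB : u ∈ B := by
        have := hBn.conj_mem b hb y⁻¹
        rwa [inv_inv] at this
      have hu2 : u ^ 2 = b ^ 2 := by
        have h3 : u ^ 2 = y⁻¹ * b ^ 2 * y := by
          rw [hu, pow_two, pow_two]; group
        rw [h3, mul_assoc, ← hb2.eq, ← mul_assoc, inv_mul_cancel, one_mul]
      have hub : Commute u b := hB.comm u huB b hb
      have hsu : Commute s u := hB.comm s hs u huB
      have hsb : Commute s b := hB.comm s hs b hb
      have h4 : (y * b⁻¹) ^ 2 = s * (b * u⁻¹) := by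
        have h5 : (y * b⁻¹) ^ 2 = y ^ 2 * (u⁻¹ * b⁻¹) := by
          rw [hu, pow_two, pow_two]; group
        rw [h5, h1]
        have hbu' : Commute b⁻¹ u⁻¹ := hub.symm.inv_inv
        have : b ^ 2 * s * (u⁻¹ * b⁻¹) = s * (b * u⁻¹) := by
          have e1 : b ^ 2 * s = s * b ^ 2 := (hsb.pow_right 2).eq.symm
          rw [e1, ← hbu'.eq, pow_two]
          group
        exact this
      apply hd b⁻¹ (inv_mem hb)
      rw [h4]
      have hD : Commute s (b * u⁻¹) := hsb.mul_right hsu.inv_right
      have hbu : Commute b u⁻¹ := hub.symm.inv_right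
      rw [hD.mul_pow, hs2, one_mul, hbu.mul_pow, inv_pow, hu2, mul_inv_cancel]
    have htn : ∀ b ∈ B, b ^ 2 ≠ t := by
      intro b _ h1
      have h2 : b ^ 2 ≠ 1 := by rw [h1]; exact ht1
      have := mono_mem h hz h2
      rw [h1] at this
      rcases mem_zpowers_invol ht2 this with h3 | h3
      · exact hz.1 h3
      · exact htz h3.symm
    have hf := sq_E B hB.comm (z := z) (t := t) (fun s hs hs2 => hinv hs hs2) ht ht2 htn
      (hsqB y) he
    have hy2 : Commute y (y ^ 2) := (Commute.refl y).pow_right 2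
    have step : ∀ b ∈ B, ∃ r ∈ B, ∃ b₁ ∈ B, Commute y r ∧ b = r * b₁ ^ 2 := by
      intro b hb
      rcases hf b hb with ⟨b₁, hb₁, s, hs, hs2, he⟩ | ⟨b₁, hb₁, s, hs, hs2, he⟩
      · refine ⟨s, hs, b₁, hb₁, hinvy s hs hs2, ?_⟩
        rw [he]
        exact hB.comm _ (pow_mem hb₁ 2) _ hs
      · refine ⟨s * y ^ 2, mul_mem hs (hsqB y), b₁, hb₁,
          (show Commute y s from hinvy s hs hs2).mul_right hy2, ?_⟩
        rw [he, mul_assoc]
        exact hB.comm _ (pow_mem hb₁ 2) _ (mul_mem hs (hsqB y))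
    have iter : ∀ k : ℕ, ∀ b ∈ B, ∃ r ∈ B, ∃ b₁ ∈ B, Commute y r ∧ b = r * b₁ ^ (2 ^ k) := by
      intro k
      induction k with
      | zero =>
        intro b hb
        exact ⟨1, one_mem _, b, hb, Commute.one_right y, by simp⟩
      | succ k ih =>
        intro b hb
        obtain ⟨r, hr, b₁, hb₁, hyr, hbr⟩ := ih b hb
        obtain ⟨r', hr', b₂, hb₂, hyr', hbr'⟩ := step b₁ hb₁
        refine ⟨r * r' ^ (2 ^ k), mul_mem hr (pow_mem hr' _), b₂, hb₂,
          hyr.mul_right (hyr'.pow_right _), ?_⟩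
        have hc : Commute r' (b₂ ^ 2) := hB.comm _ hr' _ (pow_mem hb₂ 2)
        rw [hbr, hbr', hc.mul_pow, ← pow_mul, ← pow_succ', mul_assoc]
    apply hy
    apply hB.cent
    intro b hb
    obtain ⟨n, hn⟩ := (IsPGroup.iff_card (p := 2)).mp h.two
    obtain ⟨r, _, b₁, _, hyr, hbr⟩ := iter n b hb
    have h1 : b₁ ^ (2 ^ n) = 1 := by rw [← hn]; exact pow_card_eq_one'
    rw [h1, mul_one] at hbr
    rw [hbr]
    exact hyr

theorem MM' [Finite G] (h : IsC G) {z : G} (hz : Mono z) {B : Subgroup G} (hB : SC B) :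
    B.index ≤ 4 := by
  classical
  obtain ⟨hzc, hz2⟩ := mono_center h.two hz
  have hzB : z ∈ B := center_le_SC hB hzc
  have hBn : B.Normal := normal_of_Sq_le hB.sq_le
  have hsqB : ∀ g : G, g ^ 2 ∈ B := fun g => hB.sq_le (sq_mem_Sq g)
  by_cases hcase : ∃ t ∈ B, t ^ 2 = 1 ∧ t ≠ 1 ∧ t ≠ z
  · obtain ⟨t, ht, ht2, ht1, htz⟩ := hcase
    set K : Subgroup G := centralizer {t} with hK
    have hmemK : ∀ g, g ∈ K ↔ g * t = t * g := by
      intro g
      rw [hK, mem_centralizer_singleton_iff]
    have hBK : B ≤ K := fun b hb => (hmemK b).mpr (hB.comm b hb t ht)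
    have hconj : ∀ g, g ∉ K → g * t * g⁻¹ = t * z := by
      intro g hg
      have h1 : g * t * g⁻¹ ∈ B := hBn.conj_mem t ht g
      have h2 : (g * t * g⁻¹) ^ 2 = 1 := by rw [conj_pow, ht2, mul_one, mul_inv_cancel]
      rcases invol_B h hz hB ht ht2 ht1 htz h1 h2 with h3 | h3 | h3 | h3
      · exfalso
        rw [conj_eq_one_iff] at h3
        exact ht1 h3
      · exfalso
        apply htz
        have : g * t = z * g := by
          rw [← h3, inv_mul_cancel_right]
        rw [← mem_center_iff.mp hzc g] at this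
        exact mul_left_cancel this
      · exfalso
        apply hg
        rw [hmemK]
        have : g * t = t * g := by
          conv_rhs => rw [← h3]
          rw [inv_mul_cancel_right]
        exact this
      · exact h3
    have hK2 : K.index ≤ 2 := by
      apply index_le_two_of
      intro a b ha hb
      have h1 := hconj a ha
      have h2 := hconj b hb
      rw [hmemK]
      rw [← h2] at h1
      calc a⁻¹ * b * t = a⁻¹ * (b * t * b⁻¹) * b := by group
        _ = a⁻¹ * (a * t * a⁻¹) * b := by rw [h1]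
        _ = t * (a⁻¹ * b) := by group
    have hrel : B.relIndex K ≤ 2 := by
      unfold Subgroup.relIndex
      apply index_le_two_of
      intro a b ha hb
      rw [mem_subgroupOf] at ha hb ⊢
      have h1 := (mm3 h hz hB ht ht2 ht1 htz ha ((hmemK _).mp a.2)).1
      have h2 := (mm3 h hz hB ht ht2 ht1 htz hb ((hmemK _).mp b.2)).1
      apply hB.cent
      intro c hc
      have h3 := h1 c hc
      have h4 := h2 c hc
      push_cast
      rw [← h4] at h3
      calc (a : G)⁻¹ * b * c = (a : G)⁻¹ * (b * c * (b : G)⁻¹) * b := by group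
        _ = (a : G)⁻¹ * (a * c * (a : G)⁻¹) * b := by rw [h3]
        _ = c * ((a : G)⁻¹ * b) := by group
    have := Subgroup.relIndex_mul_index hBK
    rw [← this]
    calc B.relIndex K * K.index ≤ 2 * 2 := Nat.mul_le_mul hrel hK2
      _ = 4 := rfl
  · push Not at hcase
    have huniq : ∀ t ∈ B, t ^ 2 = 1 → t = 1 ∨ t = z := by
      intro t ht ht2
      by_cases h1 : t = 1
      · exact Or.inl h1
      · exact Or.inr (hcase t ht ht2 h1)
    obtain ⟨b, hbB, hb⟩ := cyc_of_unique h.two B hB.comm huniq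
    by_cases hb2 : b ^ 2 = 1
    · have htop : B = ⊤ := by
        rw [eq_top_iff]
        intro g _
        apply hB.cent
        intro c hc
        rcases mem_zpowers_invol hb2 (hb c hc) with h1 | h1
        · rw [h1, mul_one, one_mul]
        · rcases huniq b hbB hb2 with h2 | h2
          · rw [h1, h2, mul_one, one_mul]
          · rw [h1, h2]
            exact mem_center_iff.mp hzc g
      rw [htop, Subgroup.index_top]
      norm_num
    · have hb1 : b ≠ 1 := by
        rintro rfl
        exact hb2 (one_pow 2)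
      have key : ∀ g : G, g * b * g⁻¹ ∈ ({b, z * b, b⁻¹, z * b⁻¹} : Finset G) := by
        intro g
        have hcB : g * b * g⁻¹ ∈ B := hBn.conj_mem b hbB g
        set c := g * b * g⁻¹ with hc
        have hcb : Commute c b := hB.comm c hcB b hbB
        obtain ⟨i, hi⟩ := hb c hcB
        simp only at hi
        -- g c g⁻¹ = b
        have hgc : g * c * g⁻¹ = b := by
          have h1 : g ^ 2 * b = b * g ^ 2 := hB.comm _ (hsqB g) _ hbB
          calc g * c * g⁻¹ = g ^ 2 * b * (g ^ 2)⁻¹ := by rw [hc, pow_two]; group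
            _ = b := by rw [h1, mul_inv_cancel_right]
        have hc2 : c ^ 2 = g * b ^ 2 * g⁻¹ := by rw [hc, conj_pow]
        rcases Int.even_or_odd' i with ⟨m, hm | hm⟩
        · -- impossible
          exfalso
          have hF : c ∈ zpowers (b ^ 2) := by
            refine ⟨m, ?_⟩
            simp only
            rw [← hi, hm, ← zpow_natCast b 2, ← zpow_mul]
            norm_num
          have hn := zpowers_normal_of (h.F1 b)
          have hbm : b ∈ zpowers (b ^ 2) := by
            have := hn.conj_mem c hF g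
            rwa [hgc] at this
          obtain ⟨j, hj⟩ := hbm
          simp only at hj
          have h1 : b ^ (2 * (-j) + 1) = 1 := by
            rw [← zpow_natCast b 2, ← zpow_mul] at hj
            rw [zpow_add, zpow_one, mul_neg, zpow_neg]
            push_cast at hj
            rw [hj, inv_mul_cancel]
          have h2 := mem_zpowers_odd h.two b (-j)
          rw [h1, zpowers_one_eq_bot, mem_bot] at h2
          exact hb1 h2
        · rcases Int.even_or_odd' m with ⟨n, hn | hn⟩
          · -- i = 4n+1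
            have hN : b * c = (b ^ 2) ^ (2 * n + 1) := by
              rw [← hi, hm, hn, ← zpow_natCast b 2, ← zpow_mul, ← zpow_one_add]
              congr 1
              push_cast
              ring
            have hNg : g * (b * c) * g⁻¹ = b * c := by
              calc g * (b * c) * g⁻¹ = (g * b * g⁻¹) * (g * c * g⁻¹) := by group
                _ = c * b := by rw [hgc, ← hc]
                _ = b * c := hcb.eq
            have hmem := mem_zpowers_odd h.two (b ^ 2) n
            rw [← hN] at hmem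
            obtain ⟨j, hj⟩ := hmem
            simp only at hj
            have hgb2 : g * b ^ 2 * g⁻¹ = b ^ 2 := by
              rw [← hj, ← conj_zpow, hNg]
            have h1 : (c * b⁻¹) ^ 2 = 1 := by
              rw [hcb.inv_right.mul_pow, hc2, hgb2, inv_pow, mul_inv_cancel]
            rcases huniq _ (mul_mem hcB (inv_mem hbB)) h1 with h2 | h2
            · have : c = b := by rwa [mul_inv_eq_one] at h2
              simp [this]
            · have : c = z * b := by rw [← h2, inv_mul_cancel_right]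
              simp [this]
          · -- i = 4n+3
            have hD : c * b⁻¹ = (b ^ 2) ^ (2 * n + 1) := by
              rw [← hi, hm, hn, ← zpow_natCast b 2, ← zpow_mul, ← zpow_sub_one]
              congr 1
              push_cast
              ring
            have hDg : g * (c * b⁻¹) * g⁻¹ = (c * b⁻¹)⁻¹ := by
              have e1 : g * (c * b⁻¹) * g⁻¹ = (g * c * g⁻¹) * (g * b * g⁻¹)⁻¹ := by group
              have e2 : (c * b⁻¹)⁻¹ = b * c⁻¹ := by group
              rw [e1, hgc, ← hc, e2]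
            have hmem := mem_zpowers_odd h.two (b ^ 2) n
            rw [← hD] at hmem
            obtain ⟨j, hj⟩ := hmem
            simp only at hj
            have hgb2 : g * b ^ 2 * g⁻¹ = (b ^ 2)⁻¹ := by
              rw [← hj, ← conj_zpow, hDg, inv_zpow]
            have h1 : (c * b) ^ 2 = 1 := by
              rw [hcb.mul_pow, hc2, hgb2, inv_mul_cancel]
            rcases huniq _ (mul_mem hcB hbB) h1 with h2 | h2
            · have : c = b⁻¹ := eq_inv_of_mul_eq_one_left h2
              simp [this]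
            · have : c = z * b⁻¹ := by rw [← h2, mul_inv_cancel_right]
              simp [this]
      have hidx := index_le_of (α := ({b, z * b, b⁻¹, z * b⁻¹} : Finset G)) B
        (fun g => ⟨g * b * g⁻¹, key g⟩) (by
          intro a c hac
          simp only [Subtype.mk.injEq] at hac
          apply hB.cent
          intro d hd
          obtain ⟨j, hj⟩ := hb d hd
          simp only at hj
          have h1 : Commute (a⁻¹ * c) b := by
            show a⁻¹ * c * b = b * (a⁻¹ * c)
            calc a⁻¹ * c * b = a⁻¹ * (c * b * c⁻¹) * c := by group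
              _ = a⁻¹ * (a * b * a⁻¹) * c := by rw [hac]
              _ = b * (a⁻¹ * c) := by group
          rw [← hj]
          exact h1.zpow_right j)
      refine hidx.trans ?_
      rw [Nat.card_eq_fintype_card, Fintype.card_coe]
      exact Finset.card_le_four

theorem MM [Finite G]
    (sq_comm : ∀ x y : G, x ^ 2 * y ^ 2 = y ^ 2 * x ^ 2)
    (h : IsC G) {z : G} (hz : Mono z) : TT G := by
  have hcomm : ∀ x ∈ Sq G, ∀ y ∈ Sq G, x * y = y * x := by
    apply closure_comm
    rintro _ ⟨x, rfl⟩ _ ⟨y, rfl⟩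
    exact sq_comm x y
  obtain ⟨B, hB, _⟩ := exists_SC (Sq G) le_rfl hcomm
  exact ⟨B, hB.sq_le, hB.comm, MM' h hz hB⟩

end Groups

end Pool.Agent.Helper95.Core2
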